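import Pool.Agent.H42.Distr

namespace Pool.Agent.Results.MP_77bbd4_lc.Full

open Cardinal

universe u

/-- Downward closed and dense. -/
def OpenDense {P : Type u} [PartialOrder P] (D : Set P) : Prop :=
  (∀ p ∈ D, ∀ q, q ≤ p → q ∈ D) ∧ ∀ p, ∃ q ∈ D, q ≤ p

/-- Strong `<κ`-distributivity. -/
def StronglyDistributive (κ : Cardinal.{u}) (P : Type u) [PartialOrder P] : Prop :=
  ∀ D : Ordinal.{u} → Set P, (∀ α < κ.ord, OpenDense (D α)) → ∀ p : P,
    ∃ q : Ordinal.{u} → P, q 0 ≤ p ∧ ∀ α < κ.ord, q α ∈ D α ∧ ∀ β < α, q α ≤ q β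

/-- The first `β` moves `p` are legal, and the moves at even stages follow `σ`. -/
def Follows {P : Type u} [PartialOrder P] (σ : (α : Ordinal.{u}) → (Set.Iio α → P) → P)
    (β : Ordinal.{u}) (p : Ordinal.{u} → P) : Prop :=
  ∀ α < β, (∀ γ < α, p α ≤ p γ) ∧ (α % 2 = 0 → p α = σ α fun γ => p γ)

/-- COM has a winning strategy in the completeness game of length `κ`. -/
def StrategicallyClosed (κ : Cardinal.{u}) (P : Type u) [PartialOrder P] [OrderTop P] : Prop :=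
  ∃ σ : (α : Ordinal.{u}) → (Set.Iio α → P) → P,
    ∀ β < κ.ord, β % 2 = 0 → ∀ p : Ordinal.{u} → P, Follows σ β p →
      (β = 0 → σ β (fun γ => p γ) = ⊤) ∧ ∀ γ < β, σ β (fun γ => p γ) ≤ p γ

theorem result (κ : Cardinal.{u}) (hκ : ℵ₀ < κ) :
    ∃ (P : Type u) (_ : PartialOrder P) (_ : OrderTop P),
      StronglyDistributive κ P ∧ ¬ StrategicallyClosed κ P := by
  have h2 : ℵ₀ ≤ (2 : Cardinal.{u}) ^ κ := hκ.le.trans (cantor κ).le
  have hT := Pool.Agent.H42.Reg.regUnc_toType (isRegular_succ h2)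
    (h2.trans_lt (Order.lt_succ _))
  have hc : #(Order.succ ((2 : Cardinal.{u}) ^ κ)).ord.ToType = Order.succ (2 ^ κ) :=
    mk_ord_toType _
  have h3 : Order.succ κ < #(Order.succ ((2 : Cardinal.{u}) ^ κ)).ord.ToType := by
    rw [hc]; exact (Order.succ_le_of_lt (cantor κ)).trans_lt (Order.lt_succ _)
  have h4 : ∀ μ < #(Order.succ ((2 : Cardinal.{u}) ^ κ)).ord.ToType,
      μ ^ κ < #(Order.succ ((2 : Cardinal.{u}) ^ κ)).ord.ToType := by
    intro μ hμ
    rw [hc, Order.lt_succ_iff] at *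
    refine (power_le_power_right hμ).trans_eq ?_
    rw [← power_mul, mul_eq_self hκ.le]
  have h5 := (Order.lt_succ κ).trans h3
  obtain ⟨S, hS1, hS2, hS3⟩ := Pool.Agent.H42.Distr.exists_fat hT h3
  refine ⟨Pool.Agent.H42.Distr.PP κ S, inferInstance, inferInstance, fun D hD p => ?_, ?_⟩
  · exact Pool.Agent.H42.Distr.distr hT hκ.le h5 h4 hS3 D (fun α hα => (hD α hα).2) p
  · rintro ⟨σ, hσ⟩
    exact Pool.Agent.H42.Distr.no_strategy hT hκ h5 h4 hS1 hS2 σ
      fun β h1 h2 p hp => (hσ β h1 h2 p hp).2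

end Pool.Agent.Results.MP_77bbd4_lc.Full
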